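import Pool.Agent.Mg.F7e0f10a.Gaf847e

open Pool.Agent.MP_7e0f10_lc

/-- Every simple chain with `n` links and `r ≤ R` is straightened by at most `41 n³ R`
angle-linear moves. -/
theorem Pool.Agent.Results.MP_7e0f10_lc.CubicLinear.result :
    ∀ (n : ℕ) (R : ℝ), 0 ≤ R → ∀ p : Fin (n + 1) → ℂ, IsSimple p → RatioLe p R →
      ∃ m : ℕ, (m : ℝ) ≤ 41 * (n : ℝ) ^ 3 * R ∧ StraightensIn p m :=
  R.upper_poly
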