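import Pool.Agent.Mg.F7e0f10.Gae9471

open Pool.Agent.MP_7e0f10_lc

/-- Already for chains with seven links there is no bound on the number of angle-linear moves:
for every `N` some simple configuration needs more than `N` moves to be straightened. -/
theorem Pool.Agent.Results.MP_7e0f10_lc.UnboundedMoves.result :
    ∀ N : ℕ, ∃ p : Fin (7 + 1) → ℂ, IsSimple p ∧ ∀ m : ℕ, StraightensIn p m → N < m :=
  unbounded_moves
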